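import Pool.Agent.Lib.RD.BMain2
import Pool.Agent.Lib.RD.Split
import Pool.Agent.Lib.RD.Clos

/-!
MP_0db6a9_al, characteristic p. The fields `M_r` of the problem are closed under all polynomial
equations of degree at most `2 r + 2`. In terms of resolvent degree: `RD_p(N) ≤ (N - 1) / 2`.
-/

open Polynomial Pool.Agent.RD

namespace Pool.Agent.Results.MP_0db6a9_al.DegreeCharP

/-- Let `k` be an algebraically closed field of characteristic `p > 0`, `K` an algebraic closure
of `k(x_1, ..., x_n)`, `r ≥ 1`, and let `M_r` be the field of all elements of `K`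
obtained from `x_1, ..., x_n` by composing algebraic functions of `r` variables. Then every
polynomial of degree at most `2 r + 2` with coefficients in `M_r` splits in `M_r`. -/
theorem result (k : Type) [Field k] [IsAlgClosed k] (p : ℕ) [Fact p.Prime] [CharP k p]
    (n r : ℕ) (hr : 1 ≤ r)
    (f : (Mr k (AlgebraicClosure (FractionRing (MvPolynomial (Fin n) k)))
      (fun i : Fin n => algebraMap (MvPolynomial (Fin n) k)
        (AlgebraicClosure (FractionRing (MvPolynomial (Fin n) k))) (MvPolynomial.X i)) r)[X])
    (hf : f.natDegree ≤ 2 * r + 2) : f.Splits := by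
  have hcl := superClosed_Mr (k := k)
    (fun i : Fin n => algebraMap (MvPolynomial (Fin n) k)
        (AlgebraicClosure (FractionRing (MvPolynomial (Fin n) k))) (MvPolynomial.X i)) r hr
  have hA := algSub_of_superClosed r _ hcl
  have : CharP (Mr k (AlgebraicClosure (FractionRing (MvPolynomial (Fin n) k)))
      (fun i : Fin n => algebraMap (MvPolynomial (Fin n) k)
        (AlgebraicClosure (FractionRing (MvPolynomial (Fin n) k))) (MvPolynomial.X i)) r) p :=
    charP_of_injective_algebraMap (algebraMap k _).injective p
  exact splits_of_isIn (2 * r + 2) (fun L _ _ _ hL v => bmain2 p hA hr hL v) f hf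

end Pool.Agent.Results.MP_0db6a9_al.DegreeCharP
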