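import Pool.Agent.Lib.RD.AMain2
import Pool.Agent.Lib.RD.Split
import Pool.Agent.Lib.RD.Clos

/-!
MP_0db6a9_al, characteristic 0. The fields `M_r` of the problem are closed under all polynomial
equations of degree at most `r + 1 + c` as soon as `(c - 1) (c - 2) ≤ r` and `c (c - 1) ≤ 2 r`.
In terms of resolvent degree: `RD(N) ≤ N - 1 - c` for `c ≥ 4` and `N ≥ (c - 1) ^ 2 + 2`.
-/

open Polynomial Pool.Agent.RD

namespace Pool.Agent.Results.MP_0db6a9_al.DegreeCharZero

/-- Let `k` be an algebraically closed field of characteristic 0, `K` an algebraic closure of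
`k(x_1, ..., x_n)`, `r ≥ 1`, `(c - 1) (c - 2) ≤ r`, `c (c - 1) ≤ 2 r` (`a - b` is 0 for `a < b`),
and let `M_r` be the field of all elements of `K` obtained from `x_1, ..., x_n` by composing
algebraic functions of `r` variables. Then every polynomial of degree at most `r + 1 + c` with
coefficients in `M_r` splits in `M_r`. -/
theorem result (k : Type) [Field k] [IsAlgClosed k] [CharZero k] (n r c : ℕ) (hr : 1 ≤ r)
    (hc1 : (c - 1) * (c - 2) ≤ r) (hc2 : c * (c - 1) ≤ 2 * r)
    (f : (Mr k (AlgebraicClosure (FractionRing (MvPolynomial (Fin n) k)))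
      (fun i : Fin n => algebraMap (MvPolynomial (Fin n) k)
        (AlgebraicClosure (FractionRing (MvPolynomial (Fin n) k))) (MvPolynomial.X i)) r)[X])
    (hf : f.natDegree ≤ r + 1 + c) : f.Splits := by
  have hcl := superClosed_Mr (k := k)
    (fun i : Fin n => algebraMap (MvPolynomial (Fin n) k)
        (AlgebraicClosure (FractionRing (MvPolynomial (Fin n) k))) (MvPolynomial.X i)) r hr
  have hA := algSub_of_superClosed r _ hcl
  have : CharZero (Mr k (AlgebraicClosure (FractionRing (MvPolynomial (Fin n) k)))
      (fun i : Fin n => algebraMap (MvPolynomial (Fin n) k)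
        (AlgebraicClosure (FractionRing (MvPolynomial (Fin n) k))) (MvPolynomial.X i)) r) :=
    charZero_of_injective_algebraMap (algebraMap k _).injective
  exact splits_of_isIn (r + 1 + c) (fun L _ _ _ hL v => amain2 hA hr c hc1 hc2 hL v) f hf

end Pool.Agent.Results.MP_0db6a9_al.DegreeCharZero
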