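import Pool.Agent.Lib.NV.Stable
import Pool.Agent.Lib.NV.Base2

/-!
MP_0db6a9_al: over an algebraically closed field `k` of infinite transcendence degree over its
prime field the answer to the question `M_r = K` does not depend on the number `n > r` of
variables.
-/

open Pool.Agent.RD

namespace Pool.Agent.Results.MP_0db6a9_al.NumberOfVariables

/-- Let `k` be an algebraically closed field of infinite transcendence degree over its prime field
(no finite subset `s` of `k` is such that `k` is algebraic over the subfield generated by `s`) and
`1 ≤ r < n`. If `M_r = K` for `n` variables, then `M_r = K` for every number `m` of variables. -/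
theorem result (k : Type) [Field k] [IsAlgClosed k]
    (hk : ∀ s : Finset k, ∃ y : k, ¬ IsAlgebraic (Subfield.closure (s : Set k)) y)
    (r n : ℕ) (hr : 1 ≤ r) (hn : r < n)
    (h : Mr k (AlgebraicClosure (FractionRing (MvPolynomial (Fin n) k)))
      (fun i : Fin n => algebraMap (MvPolynomial (Fin n) k)
        (AlgebraicClosure (FractionRing (MvPolynomial (Fin n) k))) (MvPolynomial.X i)) r = ⊤)
    (m : ℕ) :
    Mr k (AlgebraicClosure (FractionRing (MvPolynomial (Fin m) k)))
      (fun i : Fin m => algebraMap (MvPolynomial (Fin m) k)
        (AlgebraicClosure (FractionRing (MvPolynomial (Fin m) k))) (MvPolynomial.X i)) r = ⊤ :=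
  NV.all_of_one hr hn (fun _ _ _ f S hS hA => NV.stable hk f S hS hA) h m

end Pool.Agent.Results.MP_0db6a9_al.NumberOfVariables
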